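import Pool.Agent.Q24.CappittDefs
import Pool.Agent.Q24.Cappitt2

/-!
# The derived subgroup of a pro-`p` group with proper nontrivial `STilde` is finite cyclic
-/

set_option autoImplicit false

namespace Pool.Agent.Results.MP_ca0bb9_al.DerivedCyclic

open Q24.Cappitt

universe u

/-- **If `G` is a pro-`p` group with `1 ≠ STilde G ≠ G`, then the closure of the commutator subgroup
of `G` is a nontrivial finite cyclic `p`-group.** -/
theorem result (p : ℕ) [Fact p.Prime] (G : Type u) [Group G] [TopologicalSpace G]
    [IsTopologicalGroup G] [CompactSpace G] [T2Space G] [TotallyDisconnectedSpace G]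
    (hp : IsProP p G) (h1 : STilde G ≠ ⊥) (h2 : STilde G ≠ ⊤) :
    ∃ n : ℕ, 1 ≤ n ∧
      Nonempty ((commutator G).topologicalClosure ≃* Multiplicative (ZMod (p ^ n))) :=
  derived hp h1 h2

end Pool.Agent.Results.MP_ca0bb9_al.DerivedCyclic
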